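import Pool.Agent.K1H32.WU.Fin
import Pool.Agent.K1H76.WU.W1
import Pool.Agent.K1H76.WU.W2

/-!
# Norm-bounded WOT approximation by ultrapower operators fails on `L^p` for every `p ≠ 2`

For every `1 < p < ∞`, `p ≠ 2`, both for real and for complex scalars, and for every selective
(non-principal) ultrafilter `U` on `ℕ` there is an operator `S` on the ultrapower of `L^p[0,1]`
which belongs to the weak-operator closure of all ultrapower operators `T^U`, but for no `r` to
the weak-operator closure of the `T^U` with `‖T‖ ≤ r`.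
-/

set_option autoImplicit false

open MeasureTheory
open scoped ENNReal

namespace Pool.Agent.Results.MP_7518b9_an.EveryExponentNotTwo

open Pool.Agent.K1H32.WU

/-- The space `L^p[0,1]` of `𝕜`-valued functions. -/
abbrev LpI (𝕜 : Type) [RCLike 𝕜] (p : ℝ≥0∞) : Type :=
  Lp 𝕜 p (volume.restrict (Set.Icc (0 : ℝ) 1))

/-- Question Q1 for a space `E`: every element of the WOT closure of all ultrapower operators lies
in the WOT closure of the ultrapower operators `T^U` with `‖T‖ ≤ r`, for some `r > 0`. -/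
def Q1 (𝕜 : Type) [RCLike 𝕜] (E : Type) [NormedAddCommGroup E] [NormedSpace 𝕜 E]
    (U : Ultrafilter ℕ) : Prop :=
  ∀ S ∈ opClosure 𝕜 E U, ∃ r : ℝ, 0 < r ∧ S ∈ opClosureBdd 𝕜 E U r

/-- For `𝕜 = ℝ` or `ℂ`, `1 < p < ∞`, `p ≠ 2`, and `U` any non-principal selective ultrafilter,
the answer to Q1 for `L^p[0,1]` is negative. -/
theorem result (𝕜 : Type) [RCLike 𝕜] (p : ℝ≥0∞) [Fact (1 ≤ p)] (hp1 : 1 < p) (hpt : p < ∞)
    (hp2 : p ≠ 2) (U : Ultrafilter ℕ) (hU : Selective U) (hn : Nonprincipal U) :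
    ¬ Q1 𝕜 (LpI 𝕜 p) U := by
  intro h
  obtain ⟨S, hS, hS2⟩ := main_of 𝕜 Pool.Agent.K1H76.WU.t_kh Pool.Agent.K1H76.WU.t_orth
    Pool.Agent.K1H76.WU.t_meas Pool.Agent.K1H76.WU.t_count p hp1 hpt hp2 hU hn
  obtain ⟨r, _, hr⟩ := h S hS
  exact hS2 r hr

end Pool.Agent.Results.MP_7518b9_an.EveryExponentNotTwo
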